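import Pool.Agent.Lib.MP_28303a_al.NT.H73.Les

/-! # Row GOOD: functors with finite resolutions -/

set_option autoImplicit false
set_option linter.unusedSectionVars false
set_option linter.unusedVariables false

namespace Pool.Agent.NegK.NT.H73

universe u

open CategoryTheory Limits Pretriangulated ZeroObject

section

variable {k : Type u} [Ring k] {Γ : Type u} [Group Γ] {B : Type u} [MulAction Γ B] {P : Pre Γ B}

theorem rsl_zero {M : Fn k P} (h : IsZero M) : Rsl M := by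
  refine ⟨0, per_zero (isZero_zero _), ⟨?_⟩, fun n _ => (hq k P n).map_isZero (isZero_zero _)⟩
  exact ((hq k P 0).map_isZero (isZero_zero _)).iso h

theorem rsl_iso {M N : Fn k P} (e : M ≅ N) (h : Rsl M) : Rsl N := by
  obtain ⟨R, p, ⟨e'⟩, z⟩ := h
  exact ⟨R, p, ⟨e' ≪≫ e⟩, z⟩

/-- Cokernels. -/
theorem rsl_coker (hTop : TopStatement.{u}) (S : ShortComplex (Fn k P)) (hS : S.ShortExact)
    (h1 : Rsl S.X₁) (h2 : Rsl S.X₂) : Rsl S.X₃ := by
  obtain ⟨R₁, p₁, ⟨e₁⟩, z₁⟩ := h1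
  obtain ⟨R₂, p₂, ⟨e₂⟩, z₂⟩ := h2
  have _ := hS.mono_f
  have _ := hS.epi_g
  obtain ⟨f, hf⟩ := hTop k Γ B P R₁ R₂ 0 p₁ p₂ (fun n hn => z₁ n (by omega)) z₂
    (e₁.hom ≫ S.f ≫ e₂.inv)
  obtain ⟨C, g, w, hT⟩ := distinguished_cocone_triangle f
  obtain ⟨δ, x2, x3, x1⟩ := hq_les _ hT
  have hmono : Mono ((hq k P 0).map f) := by
    rw [hf]
    infer_instance
  have hδ : ∀ n : ℤ, n + 1 ≠ 0 → δ n = 0 := fun n hn => (z₁ (n + 1) hn).eq_of_tgt _ _
  have hz : ∀ n : ℤ, n ≠ 0 → IsZero ((hq k P n).obj C) := by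
    intro n hn
    obtain ⟨w3, h3⟩ := x3 n
    refine h3.isZero_X₂ ((z₂ n hn).eq_of_src _ _) ?_
    by_cases hn1 : n + 1 = 0
    · obtain ⟨w1, h1⟩ := x1 n
      have hn2 : n = -1 := by omega
      subst hn2
      have h4 : δ (-1) ≫ (hq k P 0).map f = 0 := w1
      exact (cancel_mono ((hq k P 0).map f)).1 (h4.trans zero_comp.symm)
    · exact hδ n hn1
  obtain ⟨w2, h2⟩ := x2 0
  obtain ⟨w3, h3⟩ := x3 0
  have hepi : Epi ((hq k P 0).map g) := h3.epi_f_iff.2 (hδ 0 (by omega))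
  refine ⟨C, per3 hT p₁ p₂, ⟨?_⟩, hz⟩
  have hc := ShortComplex.Exact.gIsCokernel (S := ShortComplex.mk ((hq k P 0).map f)
    ((hq k P 0).map g) w2) h2
  have hc' := hS.gIsCokernel
  exact CokernelCofork.mapIsoOfIsColimit hc hc' (Arrow.isoMk e₁ e₂ (by
    change e₁.hom ≫ S.f = (hq k P 0).map f ≫ e₂.hom
    rw [hf, Category.assoc, Category.assoc, Iso.inv_hom_id, Category.comp_id]))

/-- Kernels. -/
theorem rsl_ker (hTop : TopStatement.{u}) (S : ShortComplex (Fn k P)) (hS : S.ShortExact)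
    (h2 : Rsl S.X₂) (h3 : Rsl S.X₃) : Rsl S.X₁ := by
  obtain ⟨R₂, p₂, ⟨e₂⟩, z₂⟩ := h2
  obtain ⟨R₃, p₃, ⟨e₃⟩, z₃⟩ := h3
  have _ := hS.mono_f
  have _ := hS.epi_g
  obtain ⟨g, hg⟩ := hTop k Γ B P R₂ R₃ 0 p₂ p₃ (fun n hn => z₂ n (by omega)) z₃
    (e₂.hom ≫ S.g ≫ e₃.inv)
  obtain ⟨C, f, w, hT⟩ := distinguished_cocone_triangle₁ g
  obtain ⟨δ, x2, x3, x1⟩ := hq_les _ hT
  have hepi : Epi ((hq k P 0).map g) := by
    rw [hg]
    infer_instance
  have hδ : ∀ n : ℤ, n ≠ 0 → δ n = 0 := fun n hn => (z₃ n hn).eq_of_src _ _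
  have hδ0 : δ 0 = 0 := by
    obtain ⟨w3, h3⟩ := x3 0
    have h4 : (hq k P 0).map g ≫ δ 0 = 0 := w3
    exact (cancel_epi ((hq k P 0).map g)).1 (h4.trans comp_zero.symm)
  have hz' : ∀ n : ℤ, n + 1 ≠ 0 → IsZero ((hq k P (n + 1)).obj C) := by
    intro n hn
    obtain ⟨w1, h1⟩ := x1 n
    refine h1.isZero_X₂ ?_ ((z₂ (n + 1) hn).eq_of_tgt _ _)
    by_cases hn1 : n = 0
    · subst hn1
      exact hδ0
    · exact hδ n hn1
  have hz : ∀ n : ℤ, n ≠ 0 → IsZero ((hq k P n).obj C) := by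
    intro n hn
    have h1 := hz' (n - 1) (by omega)
    have h2 : n - 1 + 1 = n := by omega
    rw [h2] at h1
    exact h1
  obtain ⟨w2, h2⟩ := x2 0
  obtain ⟨w1, h1⟩ := x1 (-1)
  have hmono : Mono ((hq k P 0).map f) := h1.mono_g_iff.2 (hδ (-1) (by omega))
  refine ⟨C, per1 hT p₂ p₃, ⟨?_⟩, hz⟩
  have hc := ShortComplex.Exact.fIsKernel (S := ShortComplex.mk ((hq k P 0).map f)
    ((hq k P 0).map g) w2) h2
  have hc' := hS.fIsKernel
  exact KernelFork.mapIsoOfIsLimit hc hc' (Arrow.isoMk e₂ e₃ (by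
    change e₂.hom ≫ S.g = (hq k P 0).map g ≫ e₃.hom
    rw [hg, Category.assoc, Category.assoc, Iso.inv_hom_id, Category.comp_id]))

/-! ### Lifting -/

/-- Maps from a located module to the cycles of a complex without homology in this degree. -/
theorem lift_cyc (Y : CochainComplex (Loc k P) ℤ) (n : ℤ) (h : IsZero ((hq k P n).obj (qo Y)))
    (A : Loc k P) (φ : A ⟶ Y.X n) (hφ : φ ≫ Y.d n (n + 1) = 0) :
    ∃ s : A ⟶ Y.X (n - 1), s ≫ Y.d (n - 1) n = φ := by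
  have h1 : ∀ i : A.ι, ∃ y ∈ (Y.X (n - 1)).evS (A.loc i),
      Loc.lin (Y.d (n - 1) n) y = Loc.lin φ (Finsupp.single i 1) := by
    intro i
    have hx : Loc.lin φ (Finsupp.single i 1) ∈ (Y.X n).evS (A.loc i) :=
      Loc.lin_mem φ (A.single_mem i)
    have hc' : Loc.lin (Y.d n (n + 1)) (Loc.lin φ (Finsupp.single i 1)) = 0 :=
      congrArg (fun f => Loc.lin f (Finsupp.single i 1)) hφ
    have hz : hc Y n (Opposite.op (Bx.of (A.loc i))) ⟨⟨_, hx⟩, hc'⟩ = 0 := by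
      have h2 : IsZero (((hq k P n).obj (qo Y)).obj (Opposite.op (Bx.of (A.loc i)))) :=
        ((evaluation _ _).obj (Opposite.op (Bx.of (A.loc i)))).map_isZero h
      have h3 := ModuleCat.subsingleton_of_isZero h2
      exact Subsingleton.elim _ _
    exact (hc_zero Y n _ _).1 hz
  choose y hy hd using h1
  refine ⟨Loc.ofB y fun i j g hg => hy i j g hg, Loc.ext_basis fun i => ?_⟩
  rw [Loc.lin_comp, LinearMap.comp_apply, Loc.lin_ofB]
  exact hd i

/-- The map to the homology given by a map to the cycles. -/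
noncomputable def clsN (Y : CochainComplex (Loc k P) ℤ) (n : ℤ) (A : Loc k P) (ρ : A ⟶ Y.X n)
    (hρ : ρ ≫ Y.d n (n + 1) = 0) : Loc.ev.obj A ⟶ (hq k P n).obj (qo Y) where
  app U := ModuleCat.ofHom (hc Y n U ∘ₗ
    { toFun := fun x : A.evS U.unop.pt => ⟨⟨Loc.lin ρ x.1, Loc.lin_mem ρ x.2⟩,
        congrArg (fun f => Loc.lin f x.1) hρ⟩
      map_add' := fun x y => Subtype.ext (Subtype.ext (map_add _ _ _))
      map_smul' := fun c x => Subtype.ext (Subtype.ext (Loc.lin_smul ρ c _)) })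
  naturality U V g := by
    refine ModuleCat.hom_ext (LinearMap.ext fun x => ?_)
    refine (hc_res Y n g _ _ ?_).symm
    exact map_smul (Loc.lin ρ) _ _

theorem clsN_app (Y : CochainComplex (Loc k P) ℤ) (n : ℤ) (A : Loc k P) (ρ : A ⟶ Y.X n)
    (hρ : ρ ≫ Y.d n (n + 1) = 0) (U : (Bx P)ᵒᵖ) (x : A.evS U.unop.pt) (z : cy Y n U)
    (hz : z.1.1 = Loc.lin ρ x.1) :
    ((clsN Y n A ρ hρ).app U).hom x = hc Y n U z := by
  change hc Y n U _ = hc Y n U z
  congr 1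
  exact Subtype.ext (Subtype.ext hz.symm)

theorem lift_cyc' (Y : CochainComplex (Loc k P) ℤ) (m n l : ℤ) (hm : m = n - 1) (hl : l = n + 1)
    (h : IsZero ((hq k P n).obj (qo Y))) (A : Loc k P) (φ : A ⟶ Y.X n) (hφ : φ ≫ Y.d n l = 0) :
    ∃ s : A ⟶ Y.X m, s ≫ Y.d m n = φ := by
  subst hm
  subst hl
  exact lift_cyc Y n h A φ hφ

/-- A map from a finite complex to a complex without homology in positive degrees is homotopic
to a map without terms in positive degrees. -/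
theorem exists_htp {E Y : CochainComplex (Loc k P) ℤ} (hE : FinC E) (r : E ⟶ Y)
    (hz : ∀ n : ℤ, 0 < n → IsZero ((hq k P n).obj (qo Y))) :
    ∃ s : ∀ n : ℤ, E.X (n + 1) ⟶ Y.X n, ∀ n : ℤ, 0 ≤ n →
      r.f (n + 1) = s n ≫ Y.d n (n + 1) + E.d (n + 1) (n + 1 + 1) ≫ s (n + 1) := by
  classical
  obtain ⟨a, b, hab⟩ := hE.bdd
  have key : ∀ (N : ℕ) (c : ℤ), 0 ≤ c → b ≤ c + N →
      ∃ s : ∀ n : ℤ, E.X (n + 1) ⟶ Y.X n, ∀ n : ℤ, c ≤ n →
        r.f (n + 1) = s n ≫ Y.d n (n + 1) + E.d (n + 1) (n + 1 + 1) ≫ s (n + 1) := by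
    intro N
    induction N with
    | zero =>
      intro c hc hb
      refine ⟨fun _ => 0, fun n hn => ?_⟩
      have h1 : IsEmpty (E.X (n + 1)).ι := hab (n + 1) (Or.inr (by push_cast at hb; omega))
      exact (Loc.isZero_of_isEmpty (E.X (n + 1))).eq_of_src _ _
    | succ N ih =>
      intro c hc hb
      obtain ⟨s, hs⟩ := ih (c + 1) (by omega) (by push_cast at hb; omega)
      have h1 : (r.f (c + 1) - E.d (c + 1) (c + 1 + 1) ≫ s (c + 1)) ≫ Y.d (c + 1) (c + 1 + 1) =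
          0 := by
        rw [Preadditive.sub_comp, r.comm, hs (c + 1) le_rfl, Preadditive.comp_add,
          Category.assoc, E.d_comp_d_assoc, zero_comp, add_zero, sub_self]
      obtain ⟨t, ht⟩ := lift_cyc' Y c (c + 1) (c + 1 + 1) (by omega) rfl (hz (c + 1) (by omega)) _
        _ h1
      refine ⟨Function.update s c t, fun n hn => ?_⟩
      by_cases hnc : n = c
      · subst hnc
        rw [Function.update_self, Function.update_of_ne (by omega), ht, sub_add_cancel]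
      · rw [Function.update_of_ne hnc, Function.update_of_ne (by omega)]
        exact hs n (by omega)
  exact key b.toNat 0 le_rfl (by omega)

/-- Functors with finite resolutions are finitely generated. -/
theorem rsl_fg {M : Fn k P} (h : Rsl M) :
    ∃ (A : Loc k P) (π : Loc.ev.obj A ⟶ M), Finite A.ι ∧ Epi π := by
  obtain ⟨R, ⟨E, hE, ⟨ret⟩⟩, ⟨e⟩, z⟩ := h
  let Y : CochainComplex (Loc k P) ℤ := R.as
  obtain ⟨i, hi⟩ := (HomotopyCategory.quotient (Loc k P) (ComplexShape.up ℤ)).map_surjective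
    (X := Y) (Y := E) ret.i
  obtain ⟨r, hr⟩ := (HomotopyCategory.quotient (Loc k P) (ComplexShape.up ℤ)).map_surjective
    (X := E) (Y := Y) ret.r
  have hir : (HomotopyCategory.quotient (Loc k P) (ComplexShape.up ℤ)).map (i ≫ r) =
      (HomotopyCategory.quotient (Loc k P) (ComplexShape.up ℤ)).map (𝟙 Y) := by
    rw [Functor.map_comp, hi, hr, CategoryTheory.Functor.map_id]
    exact ret.retract
  have H : Homotopy (i ≫ r) (𝟙 Y) := HomotopyCategory.homotopyOfEq _ _ hir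
  have hz : ∀ n : ℤ, 0 < n → IsZero ((hq k P n).obj (qo Y)) := fun n hn => z n (by omega)
  obtain ⟨s, hs⟩ := exists_htp hE r hz
  let ρ : E.X 0 ⟶ Y.X 0 := r.f 0 - E.d 0 (0 + 1) ≫ s 0
  have hρ : ρ ≫ Y.d 0 (0 + 1) = 0 := by
    change (r.f 0 - E.d 0 (0 + 1) ≫ s 0) ≫ Y.d 0 (0 + 1) = 0
    rw [Preadditive.sub_comp, r.comm, hs 0 le_rfl, Preadditive.comp_add,
      Category.assoc, E.d_comp_d_assoc, zero_comp, add_zero, sub_self]
  have hepi : Epi (clsN Y 0 (E.X 0) ρ hρ) := by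
    have h1 : ∀ U, Epi ((clsN Y 0 (E.X 0) ρ hρ).app U) := by
      intro U
      rw [ModuleCat.epi_iff_surjective]
      intro h
      obtain ⟨x, rfl⟩ := hc_surj Y 0 U h
      have hx : Loc.lin (Y.d 0 (0 + 1)) x.1.1 = 0 := x.2
      have hy : Loc.lin (i.f 0) x.1.1 ∈ (E.X 0).evS U.unop.pt := Loc.lin_mem _ x.1.2
      have hy' : Loc.lin ρ (Loc.lin (i.f 0) x.1.1) ∈ (Y.X 0).evS U.unop.pt := Loc.lin_mem _ hy
      have hc1 : Loc.lin (Y.d 0 (0 + 1)) (Loc.lin ρ (Loc.lin (i.f 0) x.1.1)) = 0 :=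
        congrArg (fun f => Loc.lin f (Loc.lin (i.f 0) x.1.1)) hρ
      refine ⟨⟨_, hy⟩, (clsN_app Y 0 (E.X 0) ρ hρ U ⟨_, hy⟩ ⟨⟨_, hy'⟩, hc1⟩ rfl).trans ?_⟩
      have h2 := H.comm 0
      rw [dNext_eq H.hom (show (ComplexShape.up ℤ).Rel 0 (0 + 1) from rfl),
        prevD_eq H.hom (show (ComplexShape.up ℤ).Rel (0 - 1) 0 from by simp)] at h2
      have h3 := congrArg (fun f => Loc.lin f x.1.1) h2
      have h4 : Loc.lin ρ (Loc.lin (i.f 0) x.1.1) = Loc.lin (r.f 0) (Loc.lin (i.f 0) x.1.1) := by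
        have h5 : Loc.lin (E.d 0 (0 + 1)) (Loc.lin (i.f 0) x.1.1) =
            Loc.lin (i.f (0 + 1)) (Loc.lin (Y.d 0 (0 + 1)) x.1.1) :=
          congrArg (fun f => Loc.lin f x.1.1) (i.comm 0 (0 + 1))
        change Loc.lin (r.f 0) (Loc.lin (i.f 0) x.1.1) - Loc.lin (s 0) (Loc.lin (E.d 0 (0 + 1))
          (Loc.lin (i.f 0) x.1.1)) = _
        rw [h5, hx, map_zero, map_zero, sub_zero]
      have h6 : Loc.lin (r.f 0) (Loc.lin (i.f 0) x.1.1) =
          Loc.lin (H.hom (0 + 1) 0) (Loc.lin (Y.d 0 (0 + 1)) x.1.1) +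
          Loc.lin (Y.d (0 - 1) 0) (Loc.lin (H.hom 0 (0 - 1)) x.1.1) + x.1.1 := h3
      have hw : Loc.lin (Y.d (0 - 1) 0) (Loc.lin (H.hom 0 (0 - 1)) x.1.1) ∈
          (Y.X 0).evS U.unop.pt := Loc.lin_mem _ (Loc.lin_mem _ x.1.2)
      have hw' : Loc.lin (Y.d 0 (0 + 1))
          (Loc.lin (Y.d (0 - 1) 0) (Loc.lin (H.hom 0 (0 - 1)) x.1.1)) = 0 :=
        congrArg (fun f => Loc.lin f (Loc.lin (H.hom 0 (0 - 1)) x.1.1))
          (Y.d_comp_d (0 - 1) 0 (0 + 1))
      have h7 : (⟨⟨_, hy'⟩, hc1⟩ : cy Y 0 U) = ⟨⟨_, hw⟩, hw'⟩ + x := by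
        refine Subtype.ext (Subtype.ext ?_)
        change Loc.lin ρ (Loc.lin (i.f 0) x.1.1) =
          Loc.lin (Y.d (0 - 1) 0) (Loc.lin (H.hom 0 (0 - 1)) x.1.1) + x.1.1
        rw [h4, h6, hx, map_zero, zero_add]
      rw [h7, map_add, (hc_zero Y 0 U ⟨⟨_, hw⟩, hw'⟩).2
        ⟨Loc.lin (H.hom 0 (0 - 1)) x.1.1, Loc.lin_mem _ x.1.2, rfl⟩, zero_add]
    exact NatTrans.epi_of_epi_app _
  exact ⟨E.X 0, clsN Y 0 (E.X 0) ρ hρ ≫ e.hom, hE.fin 0, inferInstance⟩

/-- Sums. -/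
theorem rsl_biprod {M N : Fn k P} (h1 : Rsl M) (h2 : Rsl N) : Rsl (M ⊞ N) := by
  obtain ⟨R₁, p₁, ⟨e₁⟩, z₁⟩ := h1
  obtain ⟨R₂, p₂, ⟨e₂⟩, z₂⟩ := h2
  have _ : ∀ n : ℤ, PreservesBinaryBiproduct R₁ R₂ (hq k P n) := fun n =>
    preservesBinaryBiproduct_of_preservesBiproduct _ _ _
  refine ⟨R₁ ⊞ R₂, per2 (binaryBiproductTriangle_distinguished R₁ R₂) p₁ p₂,
    ⟨(hq k P 0).mapBiprod R₁ R₂ ≪≫ biprod.mapIso e₁ e₂⟩, fun n hn => ?_⟩
  refine IsZero.of_iso ?_ ((hq k P n).mapBiprod R₁ R₂)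
  rw [IsZero.iff_id_eq_zero]
  refine biprod.hom_ext' _ _ ?_ ?_
  · exact (z₁ n hn).eq_of_src _ _
  · exact (z₂ n hn).eq_of_src _ _

end

/-! ### Extensions in an abelian category -/

section abelian

variable {C : Type*} [Category C] [Abelian C]

theorem ext_aux (S : ShortComplex C) (hS : S.ShortExact) {Q : C} (π : Q ⟶ S.X₃) [Epi π]
    (l : Q ⟶ S.X₂) (hl : l ≫ S.g = π) :
    ∃ T : ShortComplex C, T.ShortExact ∧ T.X₁ = kernel π ∧ T.X₂ = (S.X₁ ⊞ Q) ∧ T.X₃ = S.X₂ := by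
  have _ := hS.mono_f
  have _ := hS.epi_g
  obtain ⟨u, hu⟩ : ∃ u : kernel π ⟶ S.X₁, u ≫ S.f = kernel.ι π ≫ l :=
    ⟨hS.exact.lift (kernel.ι π ≫ l) (by rw [Category.assoc, hl, kernel.condition]),
      hS.exact.lift_f _ _⟩
  have w : biprod.lift (-u) (kernel.ι π) ≫ biprod.desc S.f l = 0 := by
    rw [biprod.lift_desc, Preadditive.neg_comp, hu, neg_add_cancel]
  refine ⟨ShortComplex.mk (biprod.lift (-u) (kernel.ι π)) (biprod.desc S.f l) w, ?_, rfl, rfl, rfl⟩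
  have hmono : Mono (biprod.lift (-u) (kernel.ι π)) := by
    have h1 : Mono (biprod.lift (-u) (kernel.ι π) ≫ biprod.snd) := by
      rw [biprod.lift_snd]
      infer_instance
    exact mono_of_mono _ biprod.snd
  have hepi : Epi (biprod.desc S.f l) := by
    refine Preadditive.epi_of_cancel_zero _ fun {Z} t ht => ?_
    have h1 : S.f ≫ t = 0 := by
      have := congrArg (fun x => biprod.inl ≫ x) ht
      simpa using this
    have h2 : l ≫ t = 0 := by
      have := congrArg (fun x => biprod.inr ≫ x) ht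
      simpa using this
    have h3 : S.g ≫ hS.exact.desc t h1 = t := hS.exact.g_desc t h1
    rw [← h3, ← Category.assoc, hl] at h2
    have h4 : hS.exact.desc t h1 = 0 := by
      rw [← cancel_epi π, h2, comp_zero]
    rw [← h3, h4, comp_zero]
  refine ⟨ShortComplex.exact_of_f_is_kernel _ (KernelFork.IsLimit.ofι' _ _ fun {A} x hx => ?_)⟩
  have hx' : x ≫ biprod.desc S.f l = 0 := hx
  have h0 : (x ≫ biprod.fst) ≫ S.f + (x ≫ biprod.snd) ≫ l = 0 := by
    rw [Category.assoc, Category.assoc, ← Preadditive.comp_add, ← biprod.desc_eq, hx']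
  have h1 : (x ≫ biprod.snd) ≫ π = 0 := by
    have h2 := congrArg (fun y => y ≫ S.g) h0
    simp only [Preadditive.add_comp, Category.assoc, S.zero, comp_zero, zero_add, hl,
      zero_comp] at h2
    rw [Category.assoc]
    exact h2
  refine ⟨kernel.lift π (x ≫ biprod.snd) h1, ?_⟩
  change kernel.lift π (x ≫ biprod.snd) h1 ≫ biprod.lift (-u) (kernel.ι π) = x
  refine biprod.hom_ext _ _ ?_ ?_
  · rw [Category.assoc, biprod.lift_fst, ← cancel_mono S.f, Category.assoc, Preadditive.neg_comp,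
      hu, Preadditive.comp_neg, kernel.lift_ι_assoc]
    rw [eq_comm, ← sub_eq_zero, sub_neg_eq_add]
    exact h0
  · rw [Category.assoc, biprod.lift_snd, kernel.lift_ι]

end abelian

section

variable {k : Type u} [Ring k] {Γ : Type u} [Group Γ] {B : Type u} [MulAction Γ B] {P : Pre Γ B}

/-- Extensions. -/
theorem rsl_ext (hE : EvpStatement.{u}) (hTop : TopStatement.{u})
    (hA : ∀ A : Loc k P, Finite A.ι → Rsl (Loc.ev.obj A)) (S : ShortComplex (Fn k P))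
    (hS : S.ShortExact) (h1 : Rsl S.X₁) (h3 : Rsl S.X₃) : Rsl S.X₂ := by
  obtain ⟨A, π, hA', hπ⟩ := rsl_fg h3
  have _ := (hE k Γ B P).2.2 A
  have _ := hS.epi_g
  obtain ⟨T, hT, t1, t2, t3⟩ := ext_aux S hS π (Projective.factorThru π S.g)
    (Projective.factorThru_comp π S.g)
  have hker : Rsl (kernel π) := rsl_ker hTop (ShortComplex.mk (kernel.ι π) π (kernel.condition π))
    ⟨ShortComplex.exact_of_f_is_kernel _ (kernelIsKernel π)⟩ (hA A hA') h3
  rw [← t3]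
  refine rsl_coker hTop T hT ?_ ?_
  · rw [t1]
    exact hker
  · rw [t2]
    exact rsl_biprod h1 (hA A hA')

/-! ### Retracts of modules -/

/-- The homology in degree zero of a single complex. -/
noncomputable def sgI (k : Type u) [Ring k] {Γ : Type u} [Group Γ] {B : Type u} [MulAction Γ B]
    (P : Pre Γ B) : HomologicalComplex.single (Loc k P) (ComplexShape.up ℤ) 0 ⋙
      HomotopyCategory.quotient (Loc k P) (ComplexShape.up ℤ) ⋙ hq k P 0 ≅ Loc.ev :=
  Functor.isoWhiskerLeft (HomologicalComplex.single (Loc k P) (ComplexShape.up ℤ) 0)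
    (hqI k P 0) ≪≫ (Functor.associator _ _ _).symm ≪≫
  Functor.isoWhiskerRight (HomologicalComplex.singleMapHomologicalComplex (Loc.ev (k := k) (P := P))
    (ComplexShape.up ℤ) 0) (HomologicalComplex.homologyFunctor (Fn k P) (ComplexShape.up ℤ) 0) ≪≫
  Functor.associator _ _ _ ≪≫
  Functor.isoWhiskerLeft Loc.ev
    (HomologicalComplex.homologyFunctorSingleIso (Fn k P) (ComplexShape.up ℤ) 0) ≪≫
  Loc.ev.rightUnitor

/-- The other homology of a single complex. -/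
theorem isZero_sg (A : Loc k P) (n : ℤ) (hn : n ≠ 0) : IsZero ((hq k P n).obj
    (qo ((HomologicalComplex.single (Loc k P) (ComplexShape.up ℤ) 0).obj A))) := by
  refine IsZero.of_iso ?_ ((hqI k P n).app _)
  refine IsZero.of_iso ?_ ((HomologicalComplex.homologyFunctor (Fn k P) (ComplexShape.up ℤ)
    n).mapIso ((HomologicalComplex.singleMapHomologicalComplex (Loc.ev (k := k) (P := P))
    (ComplexShape.up ℤ) 0).app A))
  exact HomologicalComplex.isZero_single_obj_homology (ComplexShape.up ℤ) 0 (Loc.ev.obj A) n hn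

/-- Single complexes are perfect. -/
theorem per_sg (A : Loc k P) (hA : Finite A.ι) :
    Per (qo ((HomologicalComplex.single (Loc k P) (ComplexShape.up ℤ) 0).obj A)) := by
  classical
  let A' : ℤ → Loc k P := fun n => ⟨{_i : A.ι // n = 0}, fun i => A.loc i.1⟩
  have e : ∀ n, Nonempty (((HomologicalComplex.single (Loc k P) (ComplexShape.up ℤ) 0).obj A).X n ≅
      A' n) := by
    intro n
    by_cases hn : n = 0
    · subst hn
      have e1 : ((HomologicalComplex.single (Loc k P) (ComplexShape.up ℤ) 0).obj A).X 0 ≅ A :=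
        HomologicalComplex.singleObjXSelf (ComplexShape.up ℤ) 0 A
      have e2 : A ≅ A' 0 :=
        { hom := Loc.par (A := A) (A' := A' 0) (fun i => some ⟨i, rfl⟩) (by
            rintro i j h
            cases h
            exact P.refl _)
          inv := Loc.par (A := A' 0) (A' := A) (fun i => some i.1) (by
            rintro i j h
            cases h
            exact P.refl _)
          hom_inv_id := Loc.ext_basis fun i => by
            rw [Loc.lin_comp, LinearMap.comp_apply, Loc.par_some (A := A) (A' := A' 0) _ _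
              (j := (⟨i, rfl⟩ : {_i : A.ι // (0 : ℤ) = 0})) rfl,
              Loc.par_some (A := A' 0) (A' := A) _ _ (j := i) rfl]
            rfl
          inv_hom_id := Loc.ext_basis fun i => by
            rw [Loc.lin_comp, LinearMap.comp_apply, Loc.par_some (A := A' 0) (A' := A) _ _
              (j := i.1) rfl, Loc.par_some (A := A) (A' := A' 0) _ _
              (j := (⟨i.1, rfl⟩ : {_i : A.ι // (0 : ℤ) = 0})) rfl]
            rfl }
      exact ⟨e1 ≪≫ e2⟩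
    · have h1 := HomologicalComplex.isZero_single_obj_X (ComplexShape.up ℤ) 0 A n hn
      have h2 : IsEmpty (A' n).ι := ⟨fun i => hn i.2⟩
      exact ⟨h1.iso (Loc.isZero_of_isEmpty _)⟩
  have e' := (HomotopyCategory.quotient (Loc k P) (ComplexShape.up ℤ)).mapIso
    (trcIso _ A' fun n => (e n).some)
  refine per_iso e'.symm (per_qo ⟨fun n => ?_, 0, 0, fun n hn => ?_⟩)
  · change Finite {_i : A.ι // n = 0}
    infer_instance
  · change IsEmpty {_i : A.ι // n = 0}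
    exact ⟨fun i => by
      have := i.2
      omega⟩

theorem iso_of_idem {D : Type*} [Category D] {X E₀ Y M : D} (ρ : Retract Y X) (ι : X ≅ E₀)
    (r : Retract M E₀) (h : ρ.r ≫ ρ.i ≫ ι.hom = ι.hom ≫ r.r ≫ r.i) : Nonempty (Y ≅ M) := by
  have h4 : ι.inv ≫ ρ.r ≫ ρ.i = r.r ≫ r.i ≫ ι.inv := by
    rw [← cancel_mono ι.hom, Category.assoc, Category.assoc, h]
    simp
  refine ⟨⟨ρ.i ≫ ι.hom ≫ r.r, r.i ≫ ι.inv ≫ ρ.r, ?_, ?_⟩⟩
  · have h5 : (ρ.i ≫ ι.hom ≫ r.r) ≫ r.i ≫ ι.inv ≫ ρ.r =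
        ρ.i ≫ (ι.hom ≫ r.r ≫ r.i) ≫ ι.inv ≫ ρ.r := by
      simp only [Category.assoc]
    rw [h5, ← h]
    simp
  · have h5 : (r.i ≫ ι.inv ≫ ρ.r) ≫ ρ.i ≫ ι.hom ≫ r.r =
        r.i ≫ (ι.inv ≫ ρ.r ≫ ρ.i) ≫ ι.hom ≫ r.r := by
      simp only [Category.assoc]
    rw [h5, h4]
    simp

/-- Retracts of functors of finite located modules. -/
theorem rsl_ret (hE : EvpStatement.{u}) (hK : KarStatement.{u}) {M : Fn k P} (A : Loc k P)
    (hA : Finite A.ι) (r : Retract M (Loc.ev.obj A)) : Rsl M := by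
  have _ := (hE k Γ B P).1
  have _ := (hE k Γ B P).2.1
  obtain ⟨e, he⟩ := (Loc.ev (k := k) (P := P)).map_surjective (r.r ≫ r.i)
  have hee : e ≫ e = e := by
    refine (Loc.ev (k := k) (P := P)).map_injective ?_
    rw [Functor.map_comp, he, Category.assoc, r.retract_assoc]
  obtain ⟨Y, ρ, hρ⟩ := hK k Γ B P A e hee
  have h1 : (hq k P 0).map ((HomotopyCategory.quotient (Loc k P) (ComplexShape.up ℤ)).map
      ((HomologicalComplex.single (Loc k P) (ComplexShape.up ℤ) 0).map e)) ≫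
        ((sgI k P).app A).hom = ((sgI k P).app A).hom ≫ Loc.ev.map e :=
    (sgI k P).hom.naturality e
  have h2 : (ρ.map (hq k P 0)).r ≫ (ρ.map (hq k P 0)).i ≫ ((sgI k P).app A).hom =
      ((sgI k P).app A).hom ≫ r.r ≫ r.i := by
    have h3 : (hq k P 0).map ρ.r ≫ (hq k P 0).map ρ.i = (hq k P 0).map (ρ.r ≫ ρ.i) :=
      ((hq k P 0).map_comp _ _).symm
    change (hq k P 0).map ρ.r ≫ (hq k P 0).map ρ.i ≫ ((sgI k P).app A).hom = _
    rw [← Category.assoc, h3, hρ, ← he]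
    exact h1
  have h5 := iso_of_idem (ρ.map (hq k P 0)) ((sgI k P).app A) r h2
  exact ⟨Y, per_ret ρ (per_sg A hA), h5, fun n hn => (isZero_sg A n hn).of_mono
    ((ρ.map (hq k P n)).i)⟩

/-- GOOD. -/
theorem good (hE : EvpStatement.{u}) (hTop : TopStatement.{u}) (hK : KarStatement.{u}) :
    GoodStatement.{u} := by
  intro k _ Γ _ B _ P
  have hA : ∀ A : Loc k P, Finite A.ι → Rsl (Loc.ev.obj A) := fun A hA =>
    rsl_ret hE hK A hA (Retract.refl _)
  exact ⟨fun S hS h2 h3 => rsl_ker hTop S hS h2 h3,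
    fun S hS h1 h3 => rsl_ext hE hTop hA S hS h1 h3,
    fun S hS h1 h2 => rsl_coker hTop S hS h1 h2, fun M h => rsl_zero h,
    fun M N ⟨e⟩ h => rsl_iso e h, fun M A hA' ⟨r⟩ => rsl_ret hE hK A hA' r⟩

end

end Pool.Agent.NegK.NT.H73
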