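import Pool.Agent.Lib.MP_28303a_al.NT.Lab
import Pool.Agent.Lib.MP_28303a_al.NT.H80.Perf

/-! # Row TORS: torsion perfect objects are perfect after restriction -/

set_option autoImplicit false
set_option linter.unusedSectionVars false
set_option linter.unusedVariables false

namespace Pool.Agent.NegK.NT.H73

universe u

open CategoryTheory Limits Pretriangulated Triangulated

section mult

variable {k : Type u} [Ring k] {Γ : Type u} [Group Γ] {B : Type u} [MulAction Γ B] {P : Pre Γ B}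

theorem zz_mul (a b c : k) (ha : ∀ x, a * x = x * a) (hb : ∀ x, b * x = x * b)
    (hc : ∀ x, c * x = x * c) (h : c = b * a) (X : KK k P) :
    (zz c hc).app X = (zz a ha).app X ≫ (zz b hb).app X := by
  subst h
  change (HomotopyCategory.quotient (Loc k P) (ComplexShape.up ℤ)).map _ =
    (HomotopyCategory.quotient (Loc k P) (ComplexShape.up ℤ)).map _ ≫
      (HomotopyCategory.quotient (Loc k P) (ComplexShape.up ℤ)).map _
  rw [← Functor.map_comp]
  congr 1
  refine HomologicalComplex.hom_ext _ _ fun n => ?_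
  refine Loc.hom_ext (LinearMap.ext fun x => ?_)
  change MonoidAlgebra.single (1 : Γ) (b * a) • x =
    MonoidAlgebra.single (1 : Γ) b • (MonoidAlgebra.single (1 : Γ) a • x)
  rw [smul_smul, MonoidAlgebra.single_mul_single, one_mul]

theorem zz_one (a : k) (ha : ∀ x, a * x = x * a) (h : a = 1) (X : KK k P) :
    (zz a ha).app X = 𝟙 X := by
  subst h
  refine (congrArg (fun φ => (HomotopyCategory.quotient (Loc k P) (ComplexShape.up ℤ)).map φ)
    ?_).trans ((HomotopyCategory.quotient (Loc k P) (ComplexShape.up ℤ)).map_id X.as)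
  refine HomologicalComplex.hom_ext _ _ fun n => ?_
  refine Loc.hom_ext (LinearMap.ext fun x => ?_)
  change MonoidAlgebra.single (1 : Γ) (1 : k) • x = x
  rw [← MonoidAlgebra.one_def, one_smul]

end mult

section tors

variable (k : Type u) [Ring k] {Γ : Type u} [Group Γ] {B : Type u} [MulAction Γ B] (P : Pre Γ B)

/-- The third object of a triangle on the restriction of `t ^ n` is perfect. -/
theorem cone_pow (hkey : KEY k P) (Y : KK (Polynomial k) P) (hY : Per Y) (n : ℕ) :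
    ∀ (Q : KK k P) (f : (rst k P).obj Y ⟶ Q) (w : Q ⟶ ((rst k P).obj Y)⟦(1 : ℤ)⟧),
      Triangle.mk ((rst k P).map ((ttp n).app Y)) f w ∈ distTriang (KK k P) → Per Q := by
  induction n with
  | zero =>
    intro Q f w hT
    have h1 : (ttp 0 : 𝟭 (KK (Polynomial k) P) ⟶ _).app Y = 𝟙 Y := zz_one _ _ (pow_zero _) Y
    have h2 : (rst k P).map ((ttp 0 : 𝟭 (KK (Polynomial k) P) ⟶ _).app Y) = 𝟙 _ :=
      (congrArg (fun φ => (rst k P).map φ) h1).trans ((rst k P).map_id Y)
    rw [h2] at hT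
    refine per_zero ((Triangle.isZero₃_iff_isIso₁ _ hT).2 ?_)
    change IsIso (𝟙 ((rst k P).obj Y))
    infer_instance
  | succ n ih =>
    intro Q f w hT
    obtain ⟨Q₁, f₁, w₁, hT₁⟩ := distinguished_cocone_triangle ((rst k P).map
      ((ttp n : 𝟭 (KK (Polynomial k) P) ⟶ _).app Y))
    obtain ⟨f₂, w₂, hT₂⟩ := hkey Y
    have h1 : (ttp (n + 1) : 𝟭 (KK (Polynomial k) P) ⟶ _).app Y =
        (ttp n : 𝟭 (KK (Polynomial k) P) ⟶ _).app Y ≫ tt.app Y :=
      zz_mul _ _ _ _ _ _ (pow_succ' _ _) Y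
    have comm : (rst k P).map ((ttp n : 𝟭 (KK (Polynomial k) P) ⟶ _).app Y) ≫
        (rst k P).map (tt.app Y) =
        (rst k P).map ((ttp (n + 1) : 𝟭 (KK (Polynomial k) P) ⟶ _).app Y) := by
      rw [h1, Functor.map_comp]
    have o := someOctahedron comm hT₁ hT₂ hT
    exact per2 o.mem (ih _ _ _ hT₁) (per_bc _ hY)

/-- TORS. -/
theorem tors_of (hcd : CD k P) (hkey : KEY k P) : TORS k P := by
  intro X hX h0
  obtain ⟨n, hn⟩ := (hcd X X hX).2 (𝟙 X) (h0.eq_of_src _ _)
  rw [Category.id_comp] at hn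
  obtain ⟨E, hE, ⟨r⟩⟩ := hX
  obtain ⟨Q, f, w, hT⟩ := distinguished_cocone_triangle ((rst k P).map
    ((ttp n : 𝟭 (KK (Polynomial k) P) ⟶ _).app (qo E)))
  have hQ : Per Q := cone_pow k P hkey (qo E) ⟨E, hE, ⟨Retract.refl _⟩⟩ n Q f w hT
  have hi : (rst k P).map r.i ≫ (rst k P).map
      ((ttp n : 𝟭 (KK (Polynomial k) P) ⟶ _).app (qo E)) = 0 := by
    rw [← Functor.map_comp]
    have h1 := (ttp n : 𝟭 (KK (Polynomial k) P) ⟶ _).naturality r.i
    change r.i ≫ _ = _ ≫ r.i at h1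
    rw [h1, hn, zero_comp, Functor.map_zero]
  have hs : (shiftFunctor (KK k P) (1 : ℤ)).map ((rst k P).map r.i) ≫
      (shiftFunctor (KK k P) (1 : ℤ)).map ((rst k P).map
        ((ttp n : 𝟭 (KK (Polynomial k) P) ⟶ _).app (qo E))) = 0 := by
    rw [← Functor.map_comp, hi, Functor.map_zero]
  obtain ⟨φ, hφ⟩ := Triangle.coyoneda_exact₁ _ hT
    ((shiftFunctor (KK k P) (1 : ℤ)).map ((rst k P).map r.i)) hs
  have hφ' : ((rst k P).map r.i)⟦(1 : ℤ)⟧' = φ ≫ w := hφ
  have h2 : Per (((rst k P).obj X)⟦(1 : ℤ)⟧) := by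
    refine per_ret ⟨φ, w ≫ ((rst k P).map r.r)⟦(1 : ℤ)⟧', ?_⟩ hQ
    rw [← Category.assoc, ← hφ', ← Functor.map_comp, ← Functor.map_comp, r.retract,
      CategoryTheory.Functor.map_id, CategoryTheory.Functor.map_id]
  exact per_iso ((shiftEquiv (KK k P) (1 : ℤ)).unitIso.symm.app _) (per_shift h2 (-1))

end tors

end Pool.Agent.NegK.NT.H73
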