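import Pool.Agent.Lib.MP_28303a_al.NT.A.Hc
import Pool.Agent.Lib.MP_28303a_al.NT.H80.Perf

/-! # The long exact sequence of the homology functors -/

set_option autoImplicit false
set_option linter.unusedSectionVars false
set_option linter.unusedVariables false

namespace Pool.Agent.NegK.NT.H73

universe u

open CategoryTheory Limits Pretriangulated

section

variable {A : Type*} [Category A] [Abelian A]

/-- The long exact sequence in the homotopy category of an abelian category. -/
theorem hh_les (T : Triangle (HomotopyCategory A (ComplexShape.up ℤ)))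
    (hT : T ∈ distTriang (HomotopyCategory A (ComplexShape.up ℤ))) :
    ∃ δ : ∀ n : ℤ, (HomotopyCategory.homologyFunctor A (ComplexShape.up ℤ) n).obj T.obj₃ ⟶
        (HomotopyCategory.homologyFunctor A (ComplexShape.up ℤ) (n + 1)).obj T.obj₁,
      (∀ n, ∃ w, (ShortComplex.mk
        ((HomotopyCategory.homologyFunctor A (ComplexShape.up ℤ) n).map T.mor₁)
        ((HomotopyCategory.homologyFunctor A (ComplexShape.up ℤ) n).map T.mor₂) w).Exact) ∧
      (∀ n, ∃ w, (ShortComplex.mk
        ((HomotopyCategory.homologyFunctor A (ComplexShape.up ℤ) n).map T.mor₂) (δ n) w).Exact) ∧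
      (∀ n, ∃ w, (ShortComplex.mk (δ n)
        ((HomotopyCategory.homologyFunctor A (ComplexShape.up ℤ) (n + 1)).map T.mor₁)
          w).Exact) := by
  let F := HomotopyCategory.homologyFunctor A (ComplexShape.up ℤ) 0
  let δ : ∀ n : ℤ, (F.shift n).obj T.obj₃ ⟶ (F.shift (n + 1)).obj T.obj₁ := fun n =>
    F.homologySequenceδ T n (n + 1) rfl
  have h2 : ∀ n, ∃ w, (ShortComplex.mk ((F.shift n).map T.mor₁) ((F.shift n).map T.mor₂)
    w).Exact := fun n => ⟨_, F.homologySequence_exact₂ T hT n⟩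
  have h3 : ∀ n, ∃ w, (ShortComplex.mk ((F.shift n).map T.mor₂) (δ n) w).Exact :=
    fun n => ⟨_, F.homologySequence_exact₃ T hT n (n + 1) rfl⟩
  have h1 : ∀ n, ∃ w, (ShortComplex.mk (δ n) ((F.shift (n + 1)).map T.mor₁) w).Exact :=
    fun n => ⟨_, F.homologySequence_exact₁ T hT n (n + 1) rfl⟩
  exact ⟨δ, h2, h3, h1⟩

end

section

variable {k : Type u} [Ring k] {Γ : Type u} [Group Γ] {B : Type u} [MulAction Γ B] {P : Pre Γ B}

/-- The long exact sequence. -/
theorem hq_les (T : Triangle (KK k P)) (hT : T ∈ distTriang (KK k P)) :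
    ∃ δ : ∀ n : ℤ, (hq k P n).obj T.obj₃ ⟶ (hq k P (n + 1)).obj T.obj₁,
      (∀ n, ∃ w, (ShortComplex.mk ((hq k P n).map T.mor₁) ((hq k P n).map T.mor₂) w).Exact) ∧
      (∀ n, ∃ w, (ShortComplex.mk ((hq k P n).map T.mor₂) (δ n) w).Exact) ∧
      (∀ n, ∃ w, (ShortComplex.mk (δ n) ((hq k P (n + 1)).map T.mor₁) w).Exact) := by
  have hT' := ((Loc.ev (k := k) (P := P)).mapHomotopyCategory
    (ComplexShape.up ℤ)).map_distinguished T hT
  exact hh_les _ hT'

end

end Pool.Agent.NegK.NT.H73
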